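import Pool.Agent.Helper9.PR.Cnt

/-!
Labelings that are not sorted after `n - 3` promotions, for posets with a least element.
-/

set_option autoImplicit false

namespace Pool.Agent.Results.MP_5db8eb_co.LeastElement

open Pool.Agent.Results.MP_21b3ca_co.SeriesParallel
open scoped Nat

/-- Let `P` be a poset with `n ≥ 3` elements and a least element `⊥`, and `Q = P \ {⊥}`. The number of
the labelings `L` of `P` such that `L_(n-3)` is not a linear extension is
`2 (n - 1)! + (n - 2) T`, where `T` is the number of the tangled labelings of `Q`. If `Q` is N-free or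
in the class `Good` and has `s` minimal elements, this number is at most
`3 (n - 1)! - s (n - 2)!`. -/
theorem result (P : Type) [PartialOrder P] [Fintype P] [OrderBot P] [Fintype {x : P // x ≠ ⊥}]
    (hn : 3 ≤ Fintype.card P) :
    Nat.card {L : P ≃ Fin (Fintype.card P) //
        ¬ IsLinExt (promo^[Fintype.card P - 3] fun x => (L x : ℕ) + 1)} =
      2 * (Fintype.card P - 1)! + (Fintype.card P - 2) *
        Nat.card {L : {x : P // x ≠ ⊥} ≃ Fin (Fintype.card {x : P // x ≠ ⊥}) //
          Tangled (fun x => (L x : ℕ) + 1)} ∧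
    (NFree {x : P // x ≠ ⊥} ∨ Good (Finset.univ : Finset {x : P // x ≠ ⊥}) →
      Nat.card {L : P ≃ Fin (Fintype.card P) //
        ¬ IsLinExt (promo^[Fintype.card P - 3] fun x => (L x : ℕ) + 1)} +
        Nat.card {x : {x : P // x ≠ ⊥} // IsMin x} * (Fintype.card P - 2)! ≤
      3 * (Fintype.card P - 1)!) := by
  classical
  have hc := Pool.Agent.Helper9.PR.card_eq (P := P)
  have hm : 2 ≤ Fintype.card {x : P // x ≠ ⊥} := by omega
  refine ⟨Pool.Agent.Helper9.PR.count_eq hm, fun h => ?_⟩
  have h1 := Pool.Agent.Helper9.PR.bound hm h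
  have h2 : Nat.card {x : {x : P // x ≠ ⊥} // IsMin x} =
      (Finset.univ.filter (fun x : {x : P // x ≠ ⊥} => IsMin x)).card := by
    rw [Nat.card_eq_fintype_card, Fintype.card_subtype]
  rw [h2]
  convert h1

end Pool.Agent.Results.MP_5db8eb_co.LeastElement
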